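import Pool.Agent.helper88.GR.Spec

set_option autoImplicit false

open Complex Metric Set Filter Topology MeasureTheory
open MPS (om)
open PPS (pre TT fd)
open XPS (Df er dens tau)

noncomputable section

namespace GR

/-- the integrand, pointwise. -/
theorem LFD_pt (b b' z m : ℂ) (hb : b ≠ 0) (hb' : b' ≠ 0) (h0 : z ≠ 0) (h1 : z ≠ b) (h2 : z ≠ b')
    (hm : ‖m‖ ≤ 1) :
    ‖(m / (z - b) - m / (z - 0)) / b - (m / (z - b') - m / (z - 0)) / b'‖ ≤
      ‖b' - b‖ / (‖z‖ * ‖z - b‖ * ‖z - b'‖) := by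
  have e : (m / (z - b) - m / (z - 0)) / b - (m / (z - b') - m / (z - 0)) / b' =
      m * ((b - b') / (z * (z - b) * (z - b'))) := by
    have h3 := sub_ne_zero.2 h1
    have h4 := sub_ne_zero.2 h2
    rw [sub_zero]
    field_simp
    ring
  rw [e, norm_mul, norm_div, norm_mul, norm_mul, norm_sub_rev b b']
  exact mul_le_of_le_one_left (by positivity) hm

theorem LFD (hK : KER_stmt) (hC : NLF.CTB_stmt) : LFD_stmt := by
  obtain ⟨C, hC0, hker⟩ := hK
  refine ⟨C, hC0, fun n c μ hμ h0 b b' hb hbb => ?_⟩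
  have hbp : 0 < ‖b‖ := norm_pos_iff.2 hb
  have hb'p : 0 < ‖b'‖ := by linarith
  have hb' : b' ≠ 0 := norm_pos_iff.1 hb'p
  obtain ⟨hint, -, -, -⟩ := hC μ hμ.meas hμ.bd hμ.supp
  have e : NLF.CT μ b / b - NLF.CT μ b' / b' =
      ∫ z : ℂ, ((μ z / (z - b) - μ z / (z - 0)) / b - (μ z / (z - b') - μ z / (z - 0)) / b') := by
    have i1 : Integrable (fun z => (μ z / (z - b) - μ z / (z - 0)) / b) :=
      ((hint b).sub (hint 0)).div_const b
    have i2 : Integrable (fun z => (μ z / (z - b') - μ z / (z - 0)) / b') :=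
      ((hint b').sub (hint 0)).div_const b'
    rw [integral_sub i1 i2, integral_div, integral_div, integral_sub (hint b) (hint 0),
      integral_sub (hint b') (hint 0)]
    have h5 : ∫ z : ℂ, μ z / (z - 0) = 0 := h0
    rw [h5, sub_zero, sub_zero]
    rfl
  have hpos : 0 ≤ C * (1 + Real.log (‖b'‖ / ‖b‖)) := by
    have : 1 ≤ ‖b'‖ / ‖b‖ := by
      rw [le_div_iff₀ hbp]; linarith
    have := Real.log_nonneg this
    positivity
  have h1 : ENNReal.ofReal ‖NLF.CT μ b / b - NLF.CT μ b' / b'‖ ≤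
      ENNReal.ofReal (C * (1 + Real.log (‖b'‖ / ‖b‖))) := by
    rw [e]
    refine le_trans ?_ (hker b b' hb hbb)
    rw [ofReal_norm]
    refine (enorm_integral_le_lintegral_enorm _).trans (lintegral_mono_ae ?_)
    have hn : ∀ w : ℂ, ∀ᵐ z : ℂ, z ≠ w := fun w => by
      rw [ae_iff]
      simp
    filter_upwards [hn 0, hn b, hn b'] with z z0 z1 z2
    rw [← ofReal_norm]
    exact ENNReal.ofReal_le_ofReal (LFD_pt b b' z (μ z) hb hb' z0 z1 z2 (hμ.bd z))
  exact (ENNReal.ofReal_le_ofReal_iff hpos).1 h1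

end GR
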