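import Pool.Agent.helper83.GR.Spec

set_option autoImplicit false

/-! Row gr:QPR of problem MP_baa4d7_al. -/

namespace Pool.Agent.GR

open Pool.Agent.helper58.DC Pool.Agent.DI

open Classical in
/-- toggling argument, complex values -/
theorem QPR_toggle {α : Type} [Finite α] (S : Set (Finset α)) (t : Finset α → α)
    (F : Finset α → ℂ)
    (h : ∀ C ∈ S, ∀ D, (D = insert (t C) C ∨ D = C.erase (t C)) → D ∈ S ∧ t D = t C ∧ F D = F C) :
    ∑ᶠ C ∈ S, (-1) ^ (C.card + 1) * F C = 0 := by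
  have hfin : S.Finite := Set.toFinite S
  rw [finsum_mem_eq_finite_toFinset_sum _ hfin]
  have hmem : ∀ C, C ∈ hfin.toFinset ↔ C ∈ S := fun C => hfin.mem_toFinset
  have hg : ∀ C ∈ S, ((if t C ∈ C then C.erase (t C) else insert (t C) C) ∈ S ∧
      t (if t C ∈ C then C.erase (t C) else insert (t C) C) = t C ∧
      F (if t C ∈ C then C.erase (t C) else insert (t C) C) = F C) := by
    intro C hC
    by_cases htc : t C ∈ C
    · simp only [htc, if_true]
      exact h C hC _ (Or.inr rfl)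
    · simp only [htc, if_false]
      exact h C hC _ (Or.inl rfl)
  refine Finset.sum_involution
    (fun C _ => if t C ∈ C then C.erase (t C) else insert (t C) C) ?_ ?_ ?_ ?_
  · intro C hC
    obtain ⟨-, -, h3⟩ := hg C ((hmem C).1 hC)
    rw [h3]
    by_cases htc : t C ∈ C
    · simp only [htc, if_true]
      have h4 : (C.erase (t C)).card + 1 = C.card := Finset.card_erase_add_one htc
      rw [h4, pow_succ]
      ring
    · simp only [htc, if_false]
      rw [Finset.card_insert_of_notMem htc, pow_succ (-1 : ℂ) (C.card + 1)]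
      ring
  · intro C hC _ heq
    by_cases htc : t C ∈ C
    · simp only [htc, if_true] at heq
      have h4 : t C ∉ C.erase (t C) := Finset.notMem_erase _ _
      rw [heq] at h4
      exact h4 htc
    · simp only [htc, if_false] at heq
      have h4 : t C ∈ insert (t C) C := Finset.mem_insert_self _ _
      rw [heq] at h4
      exact htc h4
  · intro C hC
    exact (hmem _).2 (hg C ((hmem C).1 hC)).1
  · intro C hC
    obtain ⟨-, h2, -⟩ := hg C ((hmem C).1 hC)
    rw [h2]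
    by_cases htc : t C ∈ C
    · simp only [htc, if_true, Finset.notMem_erase, if_false]
      exact Finset.insert_erase htc
    · simp only [htc, if_false, Finset.mem_insert_self, if_true]
      exact Finset.erase_insert htc

/-- `R` is the largest term of `C` which does not contain `Y` -/
def QPR_top {Γ : Type} [Group Γ] (Y : Subgroup Γ) (C : Finset (Subgroup Γ)) (R : Subgroup Γ) :
    Prop :=
  R ∈ C ∧ ¬ Y ≤ R ∧ ∀ Q ∈ C, ¬ Y ≤ Q → Q ≤ R

open Classical in
/-- the element to be toggled -/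
noncomputable def QPR_t {Γ : Type} [Group Γ] (Y : Subgroup Γ) (C : Finset (Subgroup Γ)) :
    Subgroup Γ :=
  if h : ∃ R, QPR_top Y C R then h.choose ⊔ Y else ⊥

theorem QPR_t_eq {Γ : Type} [Group Γ] {Y : Subgroup Γ} {C : Finset (Subgroup Γ)} {R : Subgroup Γ}
    (h : QPR_top Y C R) : QPR_t Y C = R ⊔ Y := by
  have h' : ∃ R, QPR_top Y C R := ⟨R, h⟩
  have h1 : h'.choose = R := by
    have h2 := h'.choose_spec
    exact le_antisymm (h.2.2 _ h2.1 h2.2.1) (h2.2.2 _ h.1 h.2.1)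
  rw [QPR_t, dif_pos h', h1]

theorem QPR_nz_sup {Γ : Type} [Group Γ] {R Y : Subgroup Γ} {x : Γ} (h1 : x ∈ nz R)
    (h2 : x ∈ nz Y) : x ∈ nz (R ⊔ Y) := by
  rw [Subgroup.mem_normalizer_iff_map_conj_eq] at h1 h2 ⊢
  rw [Subgroup.map_sup, h1, h2]

theorem QPR_nrm {Γ : Type} [Group Γ] {C : Finset (Subgroup Γ)} {x : Γ} :
    x ∈ nrm C ↔ ∀ Q ∈ C, x ∈ nz Q := by
  rw [nrm, Subgroup.mem_iInf]
  exact forall_congr' fun Q => Subgroup.mem_iInf

theorem QPR : QPR_stmt := by
  classical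
  intro Γ _ _ p _ L Y D x F hY hYL hY1 hYD hx hD
  refine QPR_toggle {C | PCh p L ⊥ C ∧ x ∈ nrm C ∧ Y ≤ nrm C} (QPR_t Y)
    (fun C => F (D ⊓ nrm C)) ?_
  intro C hC D' hD'
  obtain ⟨hC, hxC, hYC⟩ : PCh p L ⊥ C ∧ x ∈ nrm C ∧ Y ≤ nrm C := hC
  have hYP : ¬ Y ≤ ⊥ := fun h => hY1 (le_bot_iff.1 h)
  -- the largest term
  obtain ⟨R, hR⟩ : ∃ R, QPR_top Y C R := by
    have hne : (C.filter fun Q => ¬ Y ≤ Q).Nonempty := ⟨⊥, Finset.mem_filter.2 ⟨hC.mem, hYP⟩⟩
    obtain ⟨R, hR⟩ := Finset.exists_maximal hne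
    have hR1 := Finset.mem_filter.1 hR.prop
    refine ⟨R, hR1.1, hR1.2, fun Q hQ hQY => ?_⟩
    rcases hC.chain.total hQ hR1.1 with h | h
    · exact h
    · exact hR.le_of_ge (Finset.mem_filter.2 ⟨hQ, hQY⟩) h
  have ht := QPR_t_eq hR
  have hYR : Y ≤ nz R := fun y hy => QPR_nrm.1 (hYC hy) R hR.1
  set T := R ⊔ Y with hT
  have hYT : Y ≤ T := le_sup_right
  have hRT : R ≤ T := le_sup_left
  have hTR : R ≠ T := fun h => hR.2.1 (h ▸ hYT)
  have hTP : (⊥ : Subgroup Γ) ≠ T := fun h => hYP (h ▸ hYT)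
  have hTL : T ≤ L := sup_le (hC.le R hR.1) hYL
  have hTp : IsPGroup p T := IsPGroup.to_sup_of_normal_left' (hC.pg R hR.1) hY hYR
  have hcmp : ∀ Q ∈ C, Q ≤ T ∨ T ≤ Q := by
    intro Q hQ
    by_cases h : Y ≤ Q
    · right
      rcases hC.chain.total hQ hR.1 with h1 | h1
      · exact absurd (h.trans h1) hR.2.1
      · exact sup_le h1 h
    · left
      exact (hR.2.2 Q hQ h).trans hRT
  have hmem : ∀ Q, Q ≠ T → (Q ∈ D' ↔ Q ∈ C) := by
    intro Q hQ
    rcases hD' with h | h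
    · rw [h, Finset.mem_insert, ht]
      exact ⟨fun h => h.resolve_left hQ, Or.inr⟩
    · rw [h, Finset.mem_erase, ht]
      exact ⟨fun h => h.2, fun h => ⟨hQ, h⟩⟩
  have hRD : QPR_top Y D' R := by
    refine ⟨(hmem R hTR).2 hR.1, hR.2.1, fun Q hQ hQY => hR.2.2 Q ((hmem Q ?_).1 hQ) hQY⟩
    rintro rfl
    exact hQY hYT
  have hDch : PCh p L ⊥ D' := by
    refine ⟨?_, (hmem ⊥ hTP).2 hC.mem, fun Q _ => bot_le, ?_, ?_⟩
    · intro Q hQ Q' hQ' hne
      have hQ : Q ∈ D' := hQ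
      have hQ' : Q' ∈ D' := hQ'
      by_cases h : Q = T
      · subst h
        exact (hcmp Q' ((hmem Q' (Ne.symm hne)).1 hQ')).symm
      · by_cases h' : Q' = T
        · subst h'
          exact hcmp Q ((hmem Q h).1 hQ)
        · exact hC.chain.total ((hmem Q h).1 hQ) ((hmem Q' h').1 hQ')
    · intro Q hQ
      by_cases h : Q = T
      · subst h
        exact hTL
      · exact hC.le Q ((hmem Q h).1 hQ)
    · intro Q hQ
      by_cases h : Q = T
      · subst h
        exact hTp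
      · exact hC.pg Q ((hmem Q h).1 hQ)
  -- normalisers
  have key : ∀ z : Γ, z ∈ nz Y → (z ∈ nrm D' ↔ z ∈ nrm C) := by
    intro z hz
    rw [QPR_nrm, QPR_nrm]
    refine ⟨fun h Q hQ => ?_, fun h Q hQ => ?_⟩
    · by_cases h' : Q = T
      · subst h'
        exact QPR_nz_sup (h R hRD.1) hz
      · exact h Q ((hmem Q h').2 hQ)
    · by_cases h' : Q = T
      · subst h'
        exact QPR_nz_sup (h R hR.1) hz
      · exact h Q ((hmem Q h').1 hQ)
  refine ⟨⟨hDch, (key x hx).2 hxC, fun y hy => (key y (Subgroup.le_normalizer hy)).2 (hYC hy)⟩,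
    (QPR_t_eq hRD).trans ht.symm, ?_⟩
  have heq : D ⊓ nrm D' = D ⊓ nrm C := by
    ext z
    rw [Subgroup.mem_inf, Subgroup.mem_inf]
    exact and_congr_right fun hz => key z (hD hz)
  show F (D ⊓ nrm D') = F (D ⊓ nrm C)
  rw [heq]

end Pool.Agent.GR
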