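import Pool.Agent.helper83.GR.Spec

set_option autoImplicit false

/-! Row gr:SFC of problem MP_baa4d7_al. -/

namespace Pool.Agent.GR

open Pool.Agent.helper58.DC Pool.Agent.DI

/-- multiplication by a central element -/
theorem SFC_central (hSCH : SCH_stmt) {G : Type} [Group G] [Finite G] (H : Subgroup G)
    {ψ : G → ℂ} (hψ : ψ ∈ IrrOn H) {y : G} (hy : ∀ h ∈ H, y * h = h * y) {x : G}
    (hx : x ∈ H) : ψ 1 * ψ (x * y) = ψ x * ψ y := by
  have h1 := hSCH G H ψ hψ x hx y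
  have h2 : ∑ᶠ t ∈ (H : Set G), ψ (x * (t * y * t⁻¹)) = (Nat.card H : ℂ) * ψ (x * y) := by
    have h3 : ∀ t ∈ (H : Set G), ψ (x * (t * y * t⁻¹)) = ψ (x * y) := by
      intro t ht
      rw [← hy t ht]
      simp
    rw [finsum_mem_congr rfl h3, finsum_mem_eq_finite_toFinset_sum _ (Set.toFinite (H : Set G)),
      Finset.sum_const, nsmul_eq_mul]
    congr 2
    rw [← Set.ncard_eq_toFinset_card _ (Set.toFinite (H : Set G))]
    rfl
  rw [h2] at h1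
  have hc : (Nat.card H : ℂ) ≠ 0 := by
    exact_mod_cast (Nat.card_pos (α := H)).ne'
  apply mul_left_cancel₀ hc
  linear_combination h1

theorem SFC (hSCH : SCH_stmt) (hB2 : B2_stmt) : SFC_stmt := by
  intro G _ _ H S hS
  obtain ⟨-, hB⟩ := hB2 G H
  refine ⟨?_, ?_, ?_⟩
  · intro a b h hh
    constructor
    · refine finsum_mem_congr rfl fun ψ hψ => ?_
      rw [(hB ψ (hS hψ)).2.1 a h hh]
    · refine finsum_mem_congr rfl fun ψ hψ => ?_
      have h1 : (h * b * h⁻¹)⁻¹ = h * b⁻¹ * h⁻¹ := by group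
      rw [h1, (hB ψ (hS hψ)).2.1 b⁻¹ h hh]
  · intro a b
    have hfin : S.Finite := (hB2 G H).1.subset hS
    rw [Sf, finsum_mem_eq_finite_toFinset_sum _ hfin]
    refine IsIntegral.sum _ fun ψ hψ => ?_
    have hψ' : ψ ∈ IrrOn H := hS (hfin.mem_toFinset.1 hψ)
    exact ((hB ψ hψ').2.2.1 a).mul ((hB ψ hψ').2.2.1 b⁻¹)
  · intro y hyH hy v hv v' hv'
    refine finsum_mem_congr rfl fun ψ hψ => ?_
    have hψ' := hS hψ
    obtain ⟨⟨n, hn, hn1, -⟩, -⟩ := hB ψ hψ'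
    have hn0 : ψ 1 ≠ 0 := by
      rw [hn1]
      exact_mod_cast hn.ne'
    have hy' : ∀ h ∈ H, y⁻¹ * h = h * y⁻¹ := by
      intro h hh
      have := hy h hh
      rw [inv_mul_eq_iff_eq_mul, ← mul_assoc, this, mul_assoc, mul_inv_cancel, mul_one]
    have e1 := SFC_central hSCH H hψ' hy hv
    have e2 := SFC_central hSCH H hψ' hy' (H.inv_mem hv')
    have e3 := SFC_central hSCH H hψ' hy' hyH
    rw [mul_inv_cancel] at e3
    rw [hy v hv, mul_inv_rev]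
    have h4 : ψ (v * y) * ψ (v'⁻¹ * y⁻¹) * (ψ 1 * ψ 1) = ψ v * ψ v'⁻¹ * (ψ 1 * ψ 1) := by
      calc ψ (v * y) * ψ (v'⁻¹ * y⁻¹) * (ψ 1 * ψ 1)
          = (ψ 1 * ψ (v * y)) * (ψ 1 * ψ (v'⁻¹ * y⁻¹)) := by ring
        _ = ψ v * ψ v'⁻¹ * (ψ y * ψ y⁻¹) := by rw [e1, e2]; ring
        _ = _ := by rw [← e3]
    exact mul_right_cancel₀ (mul_ne_zero hn0 hn0) h4

end Pool.Agent.GR
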